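import Pool.Agent.H84.FK.Targets3

/-!
# Module OVA of the board fk2_modules (MP_85c4d1_al)
-/

set_option autoImplicit false

namespace Pool.Agent.H77.FKOVA

open Pool.Agent.H84.FK

theorem pf_ova : T_OVA := by
  intro G _ A A0 B B0 h L hAL hL
  obtain ⟨hfin, hfac, -, -, -, -, -, hsub, hquo, -⟩ := h
  have hsolv : Group.IsSolvable L := by
    refine hsub L hL ?_
    intro g hg
    obtain ⟨a, ha, b, hb, hgab⟩ := hfac g
    have haL : a ∈ L := hAL ha
    have hbL : b ∈ L := by
      have : b = a⁻¹ * g := by rw [hgab]; group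
      rw [this]
      exact L.mul_mem (L.inv_mem haL) hg
    exact ⟨a, ha, haL, b, hb, hbL, hgab⟩
  refine ⟨hsolv, ?_⟩
  intro X hXL hXB hX
  have hN : Subgroup.normalClosure (X : Set G) ≤ L := by
    rw [Subgroup.normalClosure, Subgroup.closure_le]
    intro y hy
    rw [Group.mem_conjugatesOfSet_iff] at hy
    obtain ⟨x, hx, hxy⟩ := hy
    rw [isConj_iff] at hxy
    obtain ⟨g, rfl⟩ := hxy
    obtain ⟨a, ha, b, hb, rfl⟩ := hfac g
    have h1 : b * x * b⁻¹ ∈ L := hXL (hX b hb x hx)
    have h2 : a * b * x * (a * b)⁻¹ = a * (b * x * b⁻¹) * a⁻¹ := by group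
    show a * b * x * (a * b)⁻¹ ∈ L
    rw [h2]
    exact L.mul_mem (L.mul_mem (hAL ha) h1) (L.inv_mem (hAL ha))
  have hbot : Subgroup.normalClosure (X : Set G) = ⊥ := by
    refine hquo _ inferInstance ?_
    have := hsolv
    exact Group.isSolvable_of_isSolvable_injective (Subgroup.inclusion_injective hN)
  have hle : X ≤ Subgroup.normalClosure (X : Set G) := Subgroup.le_normalClosure
  rw [hbot] at hle
  exact le_bot_iff.mp hle

end Pool.Agent.H77.FKOVA
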